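import Pool.Agent.Lib_helper59.Cube59.Main

/-!
# MP_041491_an: the sharp constant is `C^* = √3`

The definitions (norms, Walsh coefficients, degree, `Admissible`) are in
`Pool/Agent/Lib_helper8/CubeDefs.lean`.

Upper bound (`Pool/Agent/Lib_helper59/Cube59/`): put `ρ = 1/√3`. Every `w : {-1,1}^n → ℂ` extends to
a family `W(h, x)`, `W(ρ, ·) = w`, with `|W(h, x)| ≤ ‖w‖₂` for `|h| = 1`, such that the Walsh
coefficient of `W(h, ·)` at `S` is analytic for `|h| ≤ 1` up to a pole of order at most `|S|` at `0`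
(`fam_all`). This is proved by induction on `n`; the one-bit step (`one_bit`) uses the explicit
functions `(h+s)/(h(1+sh))`, `(s/ρ)(h-ρ)(1-ρh)/(h(1-sh)²)`, `1/(1-sh)²` and the identity
`(3-2a)² - (2-a²)(2-a)² = (a-1)⁴`. Then `h^d E[W(h,x) f(x)]` is analytic for `deg f ≤ d`, and the
maximum principle at `h = ρ` gives `ρ^d ‖f‖₂ ≤ ‖f‖₁`.

Lower bound: `Pool/Agent/Lib_helper8/CubeLower.lean`.
-/

namespace Pool.Agent.Results.MP_041491_an.SharpConstant

open Pool.Agent.Lib_helper8.Cube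

/-- `√3` is the least positive `C` with `‖f‖₂ ≤ C^{deg f} ‖f‖₁` for all `n ≥ 1` and all
`f : {-1,1}^n → ℝ`; that is, `C^* = √3`. -/
theorem result : IsLeast {C : ℝ | 0 < C ∧ Admissible C} (Real.sqrt 3) :=
  Pool.Agent.Cube59.isLeast

end Pool.Agent.Results.MP_041491_an.SharpConstant
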